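import Pool.Agent.Helper2.LD.St1

/-!
# LD project, module D12: directions in bipartite graphs without short cycles
-/

set_option autoImplicit false

namespace Pool.Agent.Helper79.LD

open Pool.Agent.Helper2.LD SimpleGraph

private theorem two_paths {X : Type} {P : SimpleGraph X} {L : ℕ} (hc : NoCyc P L) {u v : X}
    (p q : P.Walk u v) (hp : p.IsPath) (hq : q.IsPath) (h : p.length + q.length ≤ L) : p = q := by
  classical
  by_contra hne
  let s : Set (Sym2 X) := {e | e ∈ p.edges ∨ e ∈ q.edges}
  let H : SimpleGraph X := SimpleGraph.fromEdgeSet s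
  have hs : s ⊆ P.edgeSet := by
    rintro e (he | he)
    · exact p.edges_subset_edgeSet he
    · exact q.edges_subset_edgeSet he
  have hH : H.edgeSet = s := by
    rw [SimpleGraph.edgeSet_fromEdgeSet]
    ext e
    constructor
    · exact fun he => he.1
    · exact fun he => ⟨he, P.not_isDiag_of_mem_edgeSet (hs he)⟩
  have hp' : ∀ e ∈ p.edges, e ∈ H.edgeSet := by
    intro e he
    rw [hH]
    exact Or.inl he
  have hq' : ∀ e ∈ q.edges, e ∈ H.edgeSet := by
    intro e he
    rw [hH]
    exact Or.inr he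
  have hac : ¬ H.IsAcyclic := by
    intro hac
    apply hne
    have h1 := hac.path_unique ⟨p.transfer H hp', hp.transfer hp'⟩
      ⟨q.transfer H hq', hq.transfer hq'⟩
    have h2 : p.transfer H hp' = q.transfer H hq' := congrArg Subtype.val h1
    have h3 := congrArg SimpleGraph.Walk.support h2
    rw [SimpleGraph.Walk.support_transfer, SimpleGraph.Walk.support_transfer] at h3
    exact SimpleGraph.Walk.ext_support h3
  unfold SimpleGraph.IsAcyclic at hac
  push Not at hac
  obtain ⟨x, c, hcyc⟩ := hac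
  have hcP : ∀ e ∈ c.edges, e ∈ P.edgeSet := by
    intro e he
    have h1 := c.edges_subset_edgeSet he
    rw [hH] at h1
    exact hs h1
  have h1 := hc x (c.transfer P hcP) (hcyc.transfer hcP)
  rw [SimpleGraph.Walk.length_transfer] at h1
  have h2 : c.edges ⊆ p.edges ++ q.edges := by
    intro e he
    have h3 := c.edges_subset_edgeSet he
    rw [hH] at h3
    rw [List.mem_append]
    exact h3
  have h3 := (hcyc.edges_nodup.subperm h2).length_le
  rw [List.length_append, SimpleGraph.Walk.length_edges, SimpleGraph.Walk.length_edges,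
    SimpleGraph.Walk.length_edges] at h3
  omega

private theorem isPath_of_edist {X : Type} {P : SimpleGraph X} {u v : X} (p : P.Walk u v)
    (h : P.edist u v = (p.length : ℕ∞)) : p.IsPath := by
  apply p.isPath_of_length_eq_dist
  have h1 : (P.dist u v : ℕ∞) = P.edist u v := p.reachable.coe_dist_eq_edist
  rw [h] at h1
  exact_mod_cast h1.symm

private theorem tri {X : Type} {P : SimpleGraph X} {u v w : X} {a b c : ℕ}
    (h1 : P.edist u v = (a : ℕ∞)) (h2 : P.edist v w = (b : ℕ∞)) (h3 : P.edist u w = (c : ℕ∞)) :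
    c ≤ a + b := by
  have h := P.edist_triangle (u := u) (v := v) (w := w)
  rw [h1, h2, h3] at h
  exact_mod_cast h

private theorem adj_edist {X : Type} {P : SimpleGraph X} {u v : X} (h : P.Adj u v) :
    P.edist u v = ((1 : ℕ) : ℕ∞) := by
  rw [Nat.cast_one]
  exact SimpleGraph.edist_eq_one_iff_adj.2 h

private theorem exists_step {X : Type} {P : SimpleGraph X} {z x : X} {d : ℕ}
    (h : P.edist z x = ((d + 1 : ℕ) : ℕ∞)) : ∃ w, P.Adj z w ∧ P.edist w x = (d : ℕ∞) := by
  obtain ⟨p, hp⟩ := SimpleGraph.exists_walk_of_edist_eq_coe h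
  cases p with
  | nil => simp at hp
  | @cons _ w _ hzw q =>
    rw [SimpleGraph.Walk.length_cons] at hp
    refine ⟨w, hzw, ?_⟩
    have h1 : P.edist w x ≤ (q.length : ℕ∞) := P.edist_le q
    have h2 : q.length = d := by omega
    rw [h2] at h1
    obtain ⟨e, he⟩ := ENat.ne_top_iff_exists.1 (ne_top_of_le_ne_top (ENat.coe_ne_top d) h1)
    have h3 := tri (adj_edist hzw) he.symm h
    rw [← he] at h1 ⊢
    have h4 : e ≤ d := by exact_mod_cast h1
    have h5 : e = d := by omega
    rw [h5]

private theorem step_unique {X : Type} {P : SimpleGraph X} {L : ℕ} (hc : NoCyc P L) {z x w w' : X}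
    {d : ℕ} (h : P.edist z x = ((d + 1 : ℕ) : ℕ∞)) (hL : 2 * (d + 1) ≤ L)
    (h1 : P.Adj z w) (h2 : P.edist w x = (d : ℕ∞)) (h1' : P.Adj z w')
    (h2' : P.edist w' x = (d : ℕ∞)) : w = w' := by
  obtain ⟨q, hq⟩ := SimpleGraph.exists_walk_of_edist_eq_coe h2
  obtain ⟨q', hq'⟩ := SimpleGraph.exists_walk_of_edist_eq_coe h2'
  have hp : (SimpleGraph.Walk.cons h1 q).IsPath := by
    apply isPath_of_edist
    rw [SimpleGraph.Walk.length_cons, hq, h]
  have hp' : (SimpleGraph.Walk.cons h1' q').IsPath := by
    apply isPath_of_edist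
    rw [SimpleGraph.Walk.length_cons, hq', h]
  have h3 := two_paths hc _ _ hp hp' (by
    rw [SimpleGraph.Walk.length_cons, SimpleGraph.Walk.length_cons, hq, hq']
    omega)
  have h4 := congrArg SimpleGraph.Walk.snd h3
  simpa using h4

private theorem step_parity {X : Type} {P : SimpleGraph X} (hb : Bip P) {z x w : X} {d : ℕ}
    (h : P.edist z x = (d : ℕ∞)) (hzw : P.Adj z w) :
    P.edist w x = ((d + 1 : ℕ) : ℕ∞) ∨ ∃ d', d = d' + 1 ∧ P.edist w x = (d' : ℕ∞) := by
  obtain ⟨col, hcol⟩ := hb
  have hpar : ∀ (u v : X) (p : P.Walk u v), (col u = col v) ↔ Even p.length := by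
    intro u v p
    induction p with
    | nil => simp
    | cons huv q ih =>
      rw [SimpleGraph.Walk.length_cons, Nat.even_add_one, ← ih]
      have := hcol _ _ huv
      constructor
      · intro h1 h2
        exact this (h1.trans h2.symm)
      · intro h1
        rename_i a b c
        cases h3 : col a <;> cases h4 : col b <;> cases h5 : col c <;> simp_all
  have h1 : P.edist w x ≤ ((1 + d : ℕ) : ℕ∞) := by
    have h2 := P.edist_triangle (u := w) (v := z) (w := x)
    rw [adj_edist hzw.symm, h] at h2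
    exact_mod_cast h2
  obtain ⟨e, he⟩ := ENat.ne_top_iff_exists.1 (ne_top_of_le_ne_top (ENat.coe_ne_top (1 + d)) h1)
  have he' : P.edist w x = (e : ℕ∞) := he.symm
  have h3 : e ≤ 1 + d := by
    rw [he'] at h1
    exact_mod_cast h1
  have h4 := tri (adj_edist hzw) he' h
  obtain ⟨p, hp⟩ := SimpleGraph.exists_walk_of_edist_eq_coe h
  obtain ⟨q, hq⟩ := SimpleGraph.exists_walk_of_edist_eq_coe he'
  have h5 : e ≠ d := by
    intro hed
    have h6 := hpar _ _ p
    have h7 := hpar _ _ q
    rw [hp] at h6
    rw [hq, hed] at h7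
    have h8 := hcol _ _ hzw
    apply h8
    have h9 : (col z = col x) ↔ (col w = col x) := h6.trans h7.symm
    cases h3 : col z <;> cases h4 : col w <;> cases h5 : col x <;> simp_all
  rcases Nat.lt_or_gt_of_ne h5 with h6 | h6
  · right
    exact ⟨e, by omega, he'⟩
  · left
    rw [he']
    congr 1
    omega

private theorem tripod {X : Type} {P : SimpleGraph X} {L : ℕ} (hb : Bip P) (hc : NoCyc P L)
    (x y : X) (c : ℕ) (hxy : P.edist x y = (c : ℕ∞)) (b : ℕ) :
    ∀ (a : ℕ) (z w w' : X), P.edist z x = ((a + 1 : ℕ) : ℕ∞) →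
      P.edist z y = ((b + 1 : ℕ) : ℕ∞) → 
      P.Adj z w → P.edist w x = (a : ℕ∞) → P.Adj z w' → P.edist w' y = (b : ℕ∞) →
      a + b + 2 + c ≤ L → w ≠ w' → c = a + b + 2 := by
  induction b with
  | zero =>
    intro a z w w' h1 h2 h3 h4 h5 h6 h7 h8
    have h9 : w' = y := by
      rw [Nat.cast_zero] at h6
      exact SimpleGraph.edist_eq_zero_iff.1 h6
    rcases step_parity hb h1 h5 with h10 | ⟨d', h10, h11⟩
    · rw [h9, SimpleGraph.edist_comm, hxy] at h10
      have h11 : c = a + 1 + 1 := by exact_mod_cast h10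
      omega
    · exfalso
      have h12 : d' = a := by omega
      rw [h12] at h11
      have h13 := tri h2 (by rw [SimpleGraph.edist_comm, hxy]) h1
      exact h8 (step_unique hc h1 (by omega) h3 h4 h5 h11)
  | succ b ih =>
    intro a z w w' h1 h2 h3 h4 h5 h6 h7 h8
    have h13 := tri h2 (by rw [SimpleGraph.edist_comm, hxy]) h1
    rcases step_parity hb h1 h5 with h10 | ⟨d', h10, h11⟩
    · obtain ⟨w'', h14, h15⟩ := exists_step h6
      have h16 : z ≠ w'' := by
        rintro rfl
        rw [h2] at h15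
        have h17 : b + 1 + 1 = b := by exact_mod_cast h15
        omega
      have h18 := ih (a + 1) w' z w'' h10 h6 h5.symm h1 h14 h15 (by omega) h16
      omega
    · exfalso
      have h12 : d' = a := by omega
      rw [h12] at h11
      exact h8 (step_unique hc h1 (by omega) h3 h4 h5 h11)

theorem pD12 : StD12 := by
  intro X P L hb hc
  refine ⟨?_, ?_, ?_⟩
  · intro z x d h hL
    obtain ⟨w, h1, h2⟩ := exists_step h
    refine ⟨w, ⟨h1, h2⟩, ?_⟩
    rintro w' ⟨h3, h4⟩
    exact step_unique hc h hL h3 h4 h1 h2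
  · intro z x w d h hzw
    exact step_parity hb h hzw
  · intro z x y w w' a b c h1 h2 h3 h4 h5 h6 h7 h8
    constructor
    · rintro rfl
      have h9 := tri (by rw [SimpleGraph.edist_comm, h5]) h7 h3
      omega
    · intro h9
      by_contra hne
      have h10 := tripod hb hc x y c h3 b a z w w' h1 h2 h4 h5 h6 h7 h8 hne
      omega

end Pool.Agent.Helper79.LD
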